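import Mathlib

/-!
# Infinite multiple zeta-star values with indices at most two: a cyclic sum rule, and all integers

For a purely periodic sequence `k` of ones and twos with period `p` (not all ones), the values
`η(k_i, k_{i+1}, …)` at the shifts which start with a `2` satisfy
`∑_{i < p, k_i = 2} (η(k_i, k_{i+1}, …) - 1) = p`.
In particular `η((2, {1}^{n-2})^∞) = n` for every `n ≥ 2`: every integer `n ≥ 2` is in `η(𝒟_2)`.

The proof is an exact identity for the truncated sums: if `G_i(M)` is the sum over all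
`M ≥ n_1 ≥ n_2 ≥ ⋯` for the `i`-th shift, then
`∑_{i < p, k_i = 2} (G_i(M) - 1) + ∑_{i < p} G_i(M) / M = p` for every `M ≥ 1`.
-/

set_option autoImplicit false

namespace Pool.Agent.N710.Shelf.IntegersOccur

open Filter Topology Finset

/-- `T k r m` is the sum of `∏ n_i^{-k_i}` over all `m ≥ n_1 ≥ n_2 ≥ ⋯ ≥ n_r ≥ 1`, where the
sequence `k_1, k_2, …` is `k 0, k 1, …`. -/
noncomputable def T : (ℕ → ℕ) → ℕ → ℕ → ℝ
  | _, 0, _ => 1
  | k, r + 1, m => ∑ n ∈ Finset.Icc 1 m, T (fun i => k (i + 1)) r n / (n : ℝ) ^ (k 0)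

/-- `η(k_1, k_2, …) = x`: the limits `ζ⋆(k_1, …, k_r) = lim_m T k r m` exist and converge to `x`. -/
def IsEta (k : ℕ → ℕ) (x : ℝ) : Prop :=
  ∃ z : ℕ → ℝ, (∀ r, Tendsto (fun m => T k r m) atTop (𝓝 (z r))) ∧ Tendsto z atTop (𝓝 x)

lemma T_nonneg : ∀ (r : ℕ) (k : ℕ → ℕ) (m : ℕ), 0 ≤ T k r m
  | 0, _, _ => by simp [T]
  | r + 1, k, m => by
    rw [T]
    exact Finset.sum_nonneg fun n _ => div_nonneg (T_nonneg r _ n) (by positivity)

lemma T_succ_succ (k : ℕ → ℕ) (r m : ℕ) :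
    T k (r + 1) (m + 1) =
      T k (r + 1) m + T (fun i => k (i + 1)) r (m + 1) / ((m + 1 : ℕ) : ℝ) ^ (k 0) := by
  rw [T, T, Finset.sum_Icc_succ_top (by omega)]

lemma T_one : ∀ (r : ℕ) (k : ℕ → ℕ), T k r 1 = 1
  | 0, _ => by simp [T]
  | r + 1, k => by
    rw [T]
    simp [T_one r]

lemma T_mono_r : ∀ (r : ℕ) (k : ℕ → ℕ) (m : ℕ), 1 ≤ m → T k r m ≤ T k (r + 1) m
  | 0, k, m, hm => by
    rw [T, T]
    have h1 : (1 : ℕ) ∈ Finset.Icc 1 m := by simp [hm]
    have := Finset.single_le_sum (f := fun n : ℕ => T (fun i => k (i + 1)) 0 n / (n : ℝ) ^ (k 0))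
      (fun n _ => div_nonneg (T_nonneg 0 _ n) (by positivity)) h1
    simpa [T] using this
  | r + 1, k, m, hm => by
    rw [T, T]
    refine Finset.sum_le_sum fun n hn => ?_
    have hn1 : 1 ≤ n := (Finset.mem_Icc.mp hn).1
    exact div_le_div_of_nonneg_right (T_mono_r r _ n hn1) (by positivity)

lemma T_mono (k : ℕ → ℕ) (m : ℕ) (hm : 1 ≤ m) : Monotone fun r => T k r m :=
  monotone_nat_of_le_succ fun r => T_mono_r r k m hm

lemma one_le_T (k : ℕ → ℕ) (r m : ℕ) (hm : 1 ≤ m) : 1 ≤ T k r m := by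
  have := T_mono k m hm (Nat.zero_le r)
  simpa [T] using this

lemma T_le : ∀ (r : ℕ) (k : ℕ → ℕ), (∀ i, 1 ≤ k i) → ∀ m : ℕ, 1 ≤ m → T k r m ≤ m
  | 0, _, _, m, hm => by
    rw [T]; exact_mod_cast hm
  | r + 1, k, hk, m, hm => by
    rw [T]
    calc ∑ n ∈ Finset.Icc 1 m, T (fun i => k (i + 1)) r n / (n : ℝ) ^ (k 0)
        ≤ ∑ n ∈ Finset.Icc 1 m, (1 : ℝ) := by
          refine Finset.sum_le_sum fun n hn => ?_
          have hn1 : 1 ≤ n := (Finset.mem_Icc.mp hn).1
          have hn1' : (1 : ℝ) ≤ n := by exact_mod_cast hn1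
          rw [div_le_one (by positivity)]
          refine (T_le r _ (fun i => hk (i + 1)) n hn1).trans ?_
          exact le_self_pow₀ hn1' (by have := hk 0; omega)
      _ = m := by simp

lemma T_mono_m (k : ℕ → ℕ) (r m : ℕ) : T k r m ≤ T k r (m + 1) := by
  cases r with
  | zero => simp [T]
  | succ r =>
    rw [T_succ_succ]
    have := div_nonneg (T_nonneg r (fun i => k (i + 1)) (m + 1))
      (by positivity : (0 : ℝ) ≤ ((m + 1 : ℕ) : ℝ) ^ (k 0))
    linarith

/-- The sum over all `m ≥ n_1 ≥ n_2 ≥ ⋯`. -/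
noncomputable def G (k : ℕ → ℕ) (m : ℕ) : ℝ := ⨆ r, T k r m

lemma bdd (k : ℕ → ℕ) (hk : ∀ i, 1 ≤ k i) (m : ℕ) (hm : 1 ≤ m) :
    BddAbove (Set.range fun r => T k r m) :=
  ⟨m, by rintro _ ⟨r, rfl⟩; exact T_le r k hk m hm⟩

lemma tendsto_G (k : ℕ → ℕ) (hk : ∀ i, 1 ≤ k i) (m : ℕ) (hm : 1 ≤ m) :
    Tendsto (fun r => T k r m) atTop (𝓝 (G k m)) :=
  tendsto_atTop_ciSup (T_mono k m hm) (bdd k hk m hm)

lemma T_le_G (k : ℕ → ℕ) (hk : ∀ i, 1 ≤ k i) (r m : ℕ) (hm : 1 ≤ m) : T k r m ≤ G k m :=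
  le_ciSup (bdd k hk m hm) r

lemma G_one (k : ℕ → ℕ) : G k 1 = 1 := by
  simp [G, T_one]

lemma one_le_G (k : ℕ → ℕ) (hk : ∀ i, 1 ≤ k i) (m : ℕ) (hm : 1 ≤ m) : 1 ≤ G k m :=
  (one_le_T k 0 m hm).trans (T_le_G k hk 0 m hm)

lemma G_succ (k : ℕ → ℕ) (hk : ∀ i, 1 ≤ k i) (m : ℕ) (hm : 1 ≤ m) :
    G k (m + 1) = G k m + G (fun i => k (i + 1)) (m + 1) / ((m + 1 : ℕ) : ℝ) ^ (k 0) := by
  have h1 : Tendsto (fun r => T k (r + 1) (m + 1)) atTop (𝓝 (G k (m + 1))) :=
    (tendsto_add_atTop_iff_nat 1).mpr (tendsto_G k hk (m + 1) (by omega))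
  have h2 : Tendsto (fun r => T k (r + 1) m) atTop (𝓝 (G k m)) :=
    (tendsto_add_atTop_iff_nat 1).mpr (tendsto_G k hk m hm)
  have h3 := (tendsto_G (fun i => k (i + 1)) (fun i => hk (i + 1)) (m + 1) (by omega)).div_const
    (((m + 1 : ℕ) : ℝ) ^ (k 0))
  have h4 := h2.add h3
  refine tendsto_nhds_unique h1 (h4.congr fun r => ?_)
  rw [T_succ_succ]

lemma G_mono (k : ℕ → ℕ) (hk : ∀ i, 1 ≤ k i) : Monotone fun m => G k (m + 1) := by
  refine monotone_nat_of_le_succ fun m => ?_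
  rw [G_succ k hk (m + 1) (by omega)]
  have h := one_le_G (fun i => k (i + 1)) (fun i => hk (i + 1)) (m + 1 + 1) (by omega)
  have : 0 ≤ G (fun i => k (i + 1)) (m + 1 + 1) / ((m + 1 + 1 : ℕ) : ℝ) ^ (k 0) :=
    div_nonneg (by linarith) (by positivity)
  linarith

/-- The shift of a sequence. -/
def sh (k : ℕ → ℕ) (i : ℕ) : ℕ → ℕ := fun j => k (i + j)

lemma sh_succ (k : ℕ → ℕ) (i : ℕ) : (fun j => sh k i (j + 1)) = sh k (i + 1) := by
  funext j; simp only [sh]; congr 1; omega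

/-- The hypotheses on `k`. -/
structure Per (k : ℕ → ℕ) (p : ℕ) : Prop where
  pos : 0 < p
  val : ∀ i, k i = 1 ∨ k i = 2
  per : ∀ i, k (i + p) = k i

lemma Per.ge {k : ℕ → ℕ} {p : ℕ} (h : Per k p) (i : ℕ) : 1 ≤ k i := by
  rcases h.val i with h | h <;> omega

lemma Per.shift {k : ℕ → ℕ} {p : ℕ} (h : Per k p) (i : ℕ) : Per (sh k i) p where
  pos := h.pos
  val := fun j => h.val (i + j)
  per := fun j => by
    have := h.per (i + j)
    simp only [sh]
    rw [← this]; congr 1; omega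

lemma step (k : ℕ → ℕ) (p : ℕ) (h : Per k p) (i M : ℕ) (hM : 1 ≤ M) :
    ((if k i = 2 then G (sh k i) (M + 1) - 1 else 0) + G (sh k i) (M + 1) / ((M + 1 : ℕ) : ℝ)) -
      ((if k i = 2 then G (sh k i) M - 1 else 0) + G (sh k i) M / (M : ℝ)) =
      (G (sh k (i + 1)) (M + 1) - G (sh k i) (M + 1)) / (((M + 1 : ℕ) : ℝ) * M) := by
  have hs := G_succ (sh k i) (h.shift i).ge M hM
  rw [sh_succ] at hs
  have h0 : sh k i 0 = k i := by simp [sh]
  rw [h0] at hs
  have hM0 : (M : ℝ) ≠ 0 := by positivity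
  have hM1 : ((M + 1 : ℕ) : ℝ) ≠ 0 := by positivity
  have hc : ((M + 1 : ℕ) : ℝ) = (M : ℝ) + 1 := by push_cast; ring
  rw [hc] at hs hM1 ⊢
  rcases h.val i with h1 | h2
  · rw [h1] at hs ⊢
    have : G (sh k i) M = G (sh k i) (M + 1) - G (sh k (i + 1)) (M + 1) / ((M : ℝ) + 1) := by
      rw [hs]; simp
    rw [this]
    simp only [OfNat.one_ne_ofNat, if_false]
    field_simp
    ring
  · rw [h2] at hs ⊢
    have : G (sh k i) M = G (sh k i) (M + 1) - G (sh k (i + 1)) (M + 1) / ((M : ℝ) + 1) ^ 2 := by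
      rw [hs]; simp
    rw [this]
    simp only [if_true]
    field_simp
    ring

lemma identity (k : ℕ → ℕ) (p : ℕ) (h : Per k p) (M : ℕ) (hM : 1 ≤ M) :
    ∑ i ∈ range p, ((if k i = 2 then G (sh k i) M - 1 else 0) + G (sh k i) M / (M : ℝ)) = p := by
  induction M, hM using Nat.le_induction with
  | base => simp [G_one]
  | succ M hM ih =>
    rw [← ih, ← sub_eq_zero, ← Finset.sum_sub_distrib]
    have hcong : ∀ i ∈ range p, ((if k i = 2 then G (sh k i) (M + 1) - 1 else 0) +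
        G (sh k i) (M + 1) / ((M + 1 : ℕ) : ℝ)) -
        ((if k i = 2 then G (sh k i) M - 1 else 0) + G (sh k i) M / (M : ℝ)) =
        G (sh k (i + 1)) (M + 1) / (((M + 1 : ℕ) : ℝ) * M) -
          G (sh k i) (M + 1) / (((M + 1 : ℕ) : ℝ) * M) := fun i _ => by
      rw [step k p h i M hM]; ring
    rw [Finset.sum_congr rfl hcong,
      Finset.sum_range_sub (fun i => G (sh k i) (M + 1) / (((M + 1 : ℕ) : ℝ) * M))]
    have : sh k p = sh k 0 := by
      funext j; simp only [sh]; rw [add_comm p j, h.per j, zero_add]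
    rw [this, sub_self]

lemma G_le (k : ℕ → ℕ) (p : ℕ) (h : Per k p) (h2 : k 0 = 2) (M : ℕ) (hM : 1 ≤ M) :
    G k M ≤ p + 1 := by
  have hid := identity k p h M hM
  have h0 : 0 ∈ range p := Finset.mem_range.mpr h.pos
  have hnn : ∀ i ∈ range p,
      0 ≤ (if k i = 2 then G (sh k i) M - 1 else 0) + G (sh k i) M / (M : ℝ) := by
    intro i _
    have hg := one_le_G (sh k i) (h.shift i).ge M hM
    have : 0 ≤ G (sh k i) M / (M : ℝ) := div_nonneg (by linarith) (by positivity)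
    split_ifs <;> linarith
  have hle := Finset.single_le_sum hnn h0
  rw [hid] at hle
  have hk0 : sh k 0 = k := by funext j; simp [sh]
  simp only [h2, if_true, hk0] at hle
  have hg := one_le_G k h.ge M hM
  have : 0 ≤ G k M / (M : ℝ) := div_nonneg (by linarith) (by positivity)
  linarith

lemma tendsto_div : ∀ (j : ℕ) (k : ℕ → ℕ) (p : ℕ), Per k p → k j = 2 →
    Tendsto (fun M : ℕ => G k M / (M : ℝ)) atTop (𝓝 0) := by
  have base : ∀ (k : ℕ → ℕ) (p : ℕ), Per k p → k 0 = 2 →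
      Tendsto (fun M : ℕ => G k M / (M : ℝ)) atTop (𝓝 0) := by
    intro k p h h2
    have hlim : Tendsto (fun M : ℕ => ((p : ℝ) + 1) / (M : ℝ)) atTop (𝓝 0) :=
      tendsto_const_div_atTop_nhds_zero_nat _
    refine squeeze_zero' ?_ ?_ hlim
    · filter_upwards [eventually_ge_atTop 1] with M hM
      have hg := one_le_G k h.ge M hM
      exact div_nonneg (by linarith) (by positivity)
    · filter_upwards [eventually_ge_atTop 1] with M hM
      exact div_le_div_of_nonneg_right (G_le k p h h2 M hM) (by positivity)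
  intro j
  induction j with
  | zero => exact base
  | succ j ih =>
    intro k p h hj
    rcases h.val 0 with h1 | h2
    · have hsh : Per (sh k 1) p := h.shift 1
      have hj' : sh k 1 j = 2 := by simp only [sh]; rw [add_comm]; exact hj
      have hlim := ih (sh k 1) p hsh hj'
      have hlim' : Tendsto (fun n : ℕ => G (sh k 1) (n + 1) / ((n + 1 : ℕ) : ℝ)) atTop (𝓝 0) :=
        (tendsto_add_atTop_iff_nat 1).mpr hlim
      have hces := hlim'.cesaro
      have hsum : ∀ M : ℕ, 1 ≤ M →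
          G k M = ∑ n ∈ range M, G (sh k 1) (n + 1) / ((n + 1 : ℕ) : ℝ) := by
        intro M hM
        induction M, hM using Nat.le_induction with
        | base => simp [G_one]
        | succ M hM ihM =>
          rw [Finset.sum_range_succ, ← ihM, G_succ k h.ge M hM, h1, pow_one]
          have : (fun i => k (i + 1)) = sh k 1 := by
            funext i; simp only [sh]; rw [add_comm]
          rw [this]
      refine hces.congr' ?_
      filter_upwards [eventually_ge_atTop 1] with M hM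
      rw [hsum M hM]
      rw [div_eq_inv_mul]
    · exact base k p h h2

/-- For `k 0 = 2` the sums `G k m` converge and the limit is `η`. -/
lemma exists_eta (k : ℕ → ℕ) (p : ℕ) (h : Per k p) (h2 : k 0 = 2) :
    ∃ x, Tendsto (fun M => G k M) atTop (𝓝 x) ∧ IsEta k x := by
  have hbG : BddAbove (Set.range fun m => G k (m + 1)) :=
    ⟨p + 1, by rintro _ ⟨m, rfl⟩; exact G_le k p h h2 (m + 1) (by omega)⟩
  have hx := tendsto_atTop_ciSup (G_mono k h.ge) hbG
  have hTb : ∀ r m : ℕ, T k r (m + 1) ≤ p + 1 := fun r m =>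
    (T_le_G k h.ge r (m + 1) (by omega)).trans (G_le k p h h2 (m + 1) (by omega))
  have hbT : ∀ r, BddAbove (Set.range fun m => T k r (m + 1)) := fun r =>
    ⟨p + 1, by rintro _ ⟨m, rfl⟩; exact hTb r m⟩
  have hmT : ∀ r, Monotone fun m => T k r (m + 1) := fun r =>
    monotone_nat_of_le_succ fun m => T_mono_m k r (m + 1)
  have hzmono : Monotone fun r => ⨆ m, T k r (m + 1) := by
    refine monotone_nat_of_le_succ fun r => ?_
    exact ciSup_mono (hbT (r + 1)) fun m => T_mono_r r k (m + 1) (by omega)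
  have hzb : BddAbove (Set.range fun r => ⨆ m, T k r (m + 1)) :=
    ⟨p + 1, by rintro _ ⟨r, rfl⟩; exact ciSup_le fun m => hTb r m⟩
  have hz := tendsto_atTop_ciSup hzmono hzb
  have heq : (⨆ r, ⨆ m, T k r (m + 1)) = ⨆ m, G k (m + 1) := by
    apply le_antisymm
    · refine ciSup_le fun r => ciSup_le fun m => ?_
      exact (T_le_G k h.ge r (m + 1) (by omega)).trans (le_ciSup hbG m)
    · refine ciSup_le fun m => ?_
      rw [G]
      refine ciSup_le fun r => ?_
      exact (le_ciSup (hbT r) m).trans (le_ciSup hzb r)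
  refine ⟨⨆ m, G k (m + 1), (tendsto_add_atTop_iff_nat 1).mp hx, fun r => ⨆ m, T k r (m + 1),
    fun r => ?_, ?_⟩
  · exact (tendsto_add_atTop_iff_nat 1).mp (tendsto_atTop_ciSup (hmT r) (hbT r))
  · rw [← heq]; exact hz

/-- The cyclic sum rule. -/
lemma cyclic (k : ℕ → ℕ) (p : ℕ) (h : Per k p) (hex : ∃ i, k i = 2) :
    ∃ e : ℕ → ℝ, (∀ i, k i = 2 → IsEta (sh k i) (e i)) ∧
      ∑ i ∈ (range p).filter (fun i => k i = 2), (e i - 1) = p := by
  have hE : ∀ i, ∃ x, k i = 2 → Tendsto (fun M => G (sh k i) M) atTop (𝓝 x) ∧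
      IsEta (sh k i) x := by
    intro i
    by_cases hi : k i = 2
    · obtain ⟨x, hx⟩ := exists_eta (sh k i) p (h.shift i) (by simpa [sh] using hi)
      exact ⟨x, fun _ => hx⟩
    · exact ⟨0, fun h => absurd h hi⟩
  choose e he using hE
  refine ⟨e, fun i hi => (he i hi).2, ?_⟩
  obtain ⟨j, hj⟩ := hex
  -- every shift has a `2`
  have hper : ∀ q i, k (i + q * p) = k i := by
    intro q
    induction q with
    | zero => intro i; simp
    | succ q ih =>
      intro i
      have := h.per (i + q * p)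
      rw [← ih i, ← this]; congr 1; ring
  have hdiv : ∀ i ∈ range p, Tendsto (fun M : ℕ => G (sh k i) M / (M : ℝ)) atTop (𝓝 0) := by
    intro i hi
    have hi' := Finset.mem_range.mp hi
    refine tendsto_div (j + 1 * p - i + (i - i)) (sh k i) p (h.shift i) ?_
    have : i + (j + 1 * p - i + (i - i)) = j + 1 * p := by omega
    simp only [sh]
    rw [this, hper 1 j, hj]
  have hL : Tendsto (fun M : ℕ => ∑ i ∈ (range p).filter (fun i => k i = 2), (G (sh k i) M - 1))
      atTop (𝓝 (∑ i ∈ (range p).filter (fun i => k i = 2), (e i - 1))) :=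
    tendsto_finsetSum _ fun i hi => ((he i (Finset.mem_filter.mp hi).2).1).sub_const 1
  have hR : Tendsto (fun M : ℕ => (p : ℝ) - ∑ i ∈ range p, G (sh k i) M / (M : ℝ))
      atTop (𝓝 ((p : ℝ) - ∑ i ∈ range p, 0)) :=
    tendsto_const_nhds.sub (tendsto_finsetSum _ hdiv)
  simp only [Finset.sum_const_zero, sub_zero] at hR
  refine tendsto_nhds_unique (hL.congr' ?_) hR
  filter_upwards [eventually_ge_atTop 1] with M hM
  have hid := identity k p h M hM
  rw [Finset.sum_add_distrib, ← Finset.sum_filter] at hid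
  linarith

/-- **Cyclic sum rule** for purely periodic sequences of ones and twos, and **every integer `n ≥ 2` is
the value of `η` at the sequence `(2, {1}^{n-2})^∞`.** -/
theorem result :
    (∀ (k : ℕ → ℕ) (p : ℕ), 0 < p → (∀ i, k i = 1 ∨ k i = 2) → (∀ i, k (i + p) = k i) →
      (∃ i, k i = 2) →
      ∃ e : ℕ → ℝ, (∀ i, k i = 2 → IsEta (fun j => k (i + j)) (e i)) ∧
        ∑ i ∈ (Finset.range p).filter (fun i => k i = 2), (e i - 1) = p) ∧
    ∀ n : ℕ, 2 ≤ n → IsEta (fun j => if j % (n - 1) = 0 then 2 else 1) n := by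
  refine ⟨fun k p hp hv hper hex => cyclic k p ⟨hp, hv, hper⟩ hex, fun n hn => ?_⟩
  set k : ℕ → ℕ := fun j => if j % (n - 1) = 0 then 2 else 1 with hk
  have hP : Per k (n - 1) := by
    refine ⟨by omega, fun i => ?_, fun i => ?_⟩
    · simp only [hk]; split_ifs <;> simp
    · simp only [hk, Nat.add_mod_right]
  have h0 : k 0 = 2 := by simp [hk]
  obtain ⟨e, he1, he2⟩ := cyclic k (n - 1) hP ⟨0, h0⟩
  have hf : (range (n - 1)).filter (fun i => k i = 2) = {0} := by
    ext i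
    simp only [Finset.mem_filter, Finset.mem_range, Finset.mem_singleton, hk]
    constructor
    · rintro ⟨hi, h⟩
      by_contra hne
      rw [Nat.mod_eq_of_lt hi, if_neg hne] at h
      omega
    · rintro rfl
      exact ⟨by omega, by simp⟩
  rw [hf, Finset.sum_singleton] at he2
  have hn' : ((n - 1 : ℕ) : ℝ) = (n : ℝ) - 1 := by
    rw [Nat.cast_sub (by omega)]; simp
  have hen : e 0 = n := by rw [hn'] at he2; linarith
  have := he1 0 h0
  rw [hen] at this
  have hs : sh k 0 = k := by funext j; simp [sh]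
  rwa [hs] at this

end Pool.Agent.N710.Shelf.IntegersOccur
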